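import Pool.Agent.Helper78.KD.VarLim

/-!
# Functions of bounded variation along a geometric progression

Moderate deviations of the means of a periodic function of bounded variation along `ξ θ ^ n`: the function lies
between two Lipschitz functions whose means, and whose limit variances, are close to its own.
-/

set_option autoImplicit false

namespace Pool.Agent.Helper94.KD

open Pool.Agent.Helper23.KD (block_all)
open MeasureTheory Set Filter Topology
open H44TX (IsBV)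
open Pool.Agent.Helper78.KD
open Pool.Agent.Helper4.KDF (sig_close sig_le)

/-! ### Lifts and their averages -/

theorem lift_shift {s : ℝ → ℝ} (hs : H44TX.IsLift s) (h : ℝ) :
    ∫ t in (0 : ℝ)..1, s (t + h) = (∫ t in (0 : ℝ)..1, s t) + h := by
  have h1 : ∫ t in (0 : ℝ)..1, s (t + h) = ∫ t in h..(h + 1), s t := by
    rw [intervalIntegral.integral_comp_add_right (fun t => s t) h]
    congr 1 <;> ring
  have h2 : ∫ t in h..(h + 1), (s t - t) = ∫ t in (0 : ℝ)..1, (s t - t) := by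
    have := hs.periodic.intervalIntegral_add_eq h 0
    simpa using this
  have hid : ∀ a b : ℝ, IntervalIntegrable (fun t : ℝ => t) volume a b := fun a b => continuous_id'.intervalIntegrable a b
  rw [intervalIntegral.integral_sub (hs.intInt _ _) (hid _ _),
    intervalIntegral.integral_sub (hs.intInt _ _) (hid _ _)] at h2
  have h3 : ∫ t in h..(h + 1), t = ((h + 1) ^ 2 - h ^ 2) / 2 := integral_id
  have h4 : ∫ t in (0 : ℝ)..1, t = (1 ^ 2 - 0 ^ 2) / 2 := integral_id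
  rw [h3, h4] at h2
  rw [h1]
  linarith

theorem comp_int {s : ℝ → ℝ} (hs : H44TX.IsLift s) (t a b : ℝ) : IntervalIntegrable (fun x => s (t + x)) volume a b := by
  have h : Monotone fun x => s (t + x) := fun x y hxy => hs.mono (by linarith)
  exact h.intervalIntegrable

theorem comp_int' {s : ℝ → ℝ} (hs : H44TX.IsLift s) (h a b : ℝ) : IntervalIntegrable (fun t => s (t + h)) volume a b := by
  have h : Monotone fun t => s (t + h) := fun x y hxy => hs.mono (by linarith)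
  exact h.intervalIntegrable

/-- the mean over the next interval of length `η` -/
noncomputable def avg (s : ℝ → ℝ) (η t : ℝ) : ℝ := (∫ x in (0 : ℝ)..η, s (t + x)) / η

theorem avg_ge {s : ℝ → ℝ} (hs : H44TX.IsLift s) {η : ℝ} (hη : 0 < η) (t : ℝ) : s t ≤ avg s η t := by
  unfold avg
  rw [le_div_iff₀ hη]
  have h1 : ∫ _ in (0 : ℝ)..η, s t ≤ ∫ x in (0 : ℝ)..η, s (t + x) :=
    intervalIntegral.integral_mono_on hη.le intervalIntegrable_const (comp_int hs t _ _)
      fun x hx => hs.mono (by linarith [hx.1])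
  rw [intervalIntegral.integral_const, smul_eq_mul, sub_zero] at h1
  linarith

theorem avg_le {s : ℝ → ℝ} (hs : H44TX.IsLift s) {η : ℝ} (hη : 0 < η) (t : ℝ) : avg s η t ≤ s (t + η) := by
  unfold avg
  rw [div_le_iff₀ hη]
  have h1 : ∫ x in (0 : ℝ)..η, s (t + x) ≤ ∫ _ in (0 : ℝ)..η, s (t + η) :=
    intervalIntegral.integral_mono_on hη.le (comp_int hs t _ _) intervalIntegrable_const
      fun x hx => hs.mono (by linarith [hx.2])
  rw [intervalIntegral.integral_const, smul_eq_mul, sub_zero] at h1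
  linarith

theorem avg_lift {s : ℝ → ℝ} (hs : H44TX.IsLift s) {η : ℝ} (hη : 0 < η) : H44TX.IsLift (avg s η) := by
  constructor
  · intro t t' h
    unfold avg
    apply div_le_div_of_nonneg_right _ hη.le
    exact intervalIntegral.integral_mono_on hη.le (comp_int hs t _ _) (comp_int hs t' _ _)
      fun x _ => hs.mono (by linarith)
  · intro t
    unfold avg
    have h1 : ∀ x : ℝ, s (t + 1 + x) = s (t + x) + 1 := fun x => by
      rw [← hs.add_one]
      congr 1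
      ring
    simp only [h1]
    rw [intervalIntegral.integral_add (comp_int hs t _ _) intervalIntegrable_const, intervalIntegral.integral_const,
      smul_eq_mul]
    field_simp
    ring

theorem avg_lip {s : ℝ → ℝ} (hs : H44TX.IsLift s) {η : ℝ} (hη : 0 < η) (hη1 : η ≤ 1) {t t' : ℝ} (h : t ≤ t') :
    avg s η t' - avg s η t ≤ (t' - t) / η := by
  have h1 : ∀ r : ℝ, ∫ x in (0 : ℝ)..η, s (r + x) = ∫ x in r..(r + η), s x := fun r => by
    rw [intervalIntegral.integral_comp_add_left (fun x => s x) r, add_zero]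
  have h2 : (∫ x in t'..(t' + η), s x) - ∫ x in t..(t + η), s x = ∫ x in t..t', (s (x + η) - s x) := by
    rw [intervalIntegral.integral_sub (comp_int' hs _ _ _) (hs.intInt _ _),
      intervalIntegral.integral_comp_add_right (fun x => s x) η]
    have e1 := intervalIntegral.integral_add_adjacent_intervals (hs.intInt t (t + η)) (hs.intInt (t + η) (t' + η))
    have e2 := intervalIntegral.integral_add_adjacent_intervals (hs.intInt t t') (hs.intInt t' (t' + η))
    linarith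
  have h3 : ∫ x in t..t', (s (x + η) - s x) ≤ ∫ _ in t..t', (1 : ℝ) := by
    refine intervalIntegral.integral_mono_on h ((comp_int' hs _ _ _).sub (hs.intInt _ _)) intervalIntegrable_const
      fun x _ => ?_
    have := hs.mono (show x + η ≤ x + 1 by linarith)
    rw [hs.add_one] at this
    linarith
  rw [intervalIntegral.integral_const, smul_eq_mul, mul_one] at h3
  unfold avg
  rw [← sub_div, h1, h1, h2]
  exact div_le_div_of_nonneg_right h3 hη.le

/-- a lift minus a lift, both with small slopes, has small slope -/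
theorem sub_lip {f g : ℝ → ℝ} (hf : Monotone f) (hg : Monotone g) {K : ℝ} (hf' : ∀ t t', t ≤ t' → f t' - f t ≤ (t' - t) * K)
    (hg' : ∀ t t', t ≤ t' → g t' - g t ≤ (t' - t) * K) (t t' : ℝ) : |(f t - g t) - (f t' - g t')| ≤ K * |t - t'| := by
  rcases le_total t t' with h | h
  · have h1 := hf h
    have h2 := hg h
    have h3 := hf' t t' h
    have h4 := hg' t t' h
    rw [abs_of_nonpos (show t - t' ≤ 0 by linarith), abs_le]
    constructor <;> nlinarith
  · have h1 := hf h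
    have h2 := hg h
    have h3 := hf' t' t h
    have h4 := hg' t' t h
    rw [abs_of_nonneg (show 0 ≤ t - t' by linarith), abs_le]
    constructor <;> nlinarith

/-- a lift scaled and completed by a linear function -/
theorem lift_scale {s : ℝ → ℝ} (hs : H44TX.IsLift s) {r : ℝ} (h0 : 0 ≤ r) (h1 : r ≤ 1) :
    H44TX.IsLift (fun t => r * s t + (1 - r) * t) := by
  constructor
  · intro t t' h
    have e1 := mul_le_mul_of_nonneg_left (hs.mono h) h0
    have e2 := mul_le_mul_of_nonneg_left h (show 0 ≤ 1 - r by linarith)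
    show r * s t + (1 - r) * t ≤ r * s t' + (1 - r) * t'
    linarith
  · intro t
    show r * s (t + 1) + (1 - r) * (t + 1) = r * s t + (1 - r) * t + 1
    rw [hs.add_one]
    ring

theorem bv_scale {ψ : ℝ → ℝ} (h : IsBV ψ) {r : ℝ} (h0 : 0 ≤ r) (h1 : r ≤ 1) : IsBV (fun t => r * ψ t) := by
  obtain ⟨s₁, s₂, l1, l2, c, hc⟩ := h.ex
  refine ⟨⟨_, _, lift_scale l1 h0 h1, lift_scale l2 h0 h1, r * c, fun t => by rw [hc t]; ring⟩, fun t => ?_, ?_⟩
  · rw [abs_mul, abs_of_nonneg h0]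
    exact mul_le_one₀ h1 (abs_nonneg _) (h.bdd t)
  · rw [intervalIntegral.integral_const_mul, h.mean, mul_zero]

theorem bv_neg {ψ : ℝ → ℝ} (h : IsBV ψ) : IsBV (fun t => -ψ t) := by
  obtain ⟨s₁, s₂, l1, l2, c, hc⟩ := h.ex
  refine ⟨⟨s₂, s₁, l2, l1, -c, fun t => by rw [hc t]; ring⟩, fun t => by rw [abs_neg]; exact h.bdd t, ?_⟩
  rw [intervalIntegral.integral_neg, h.mean, neg_zero]

theorem cls_of_bv {ψ : ℝ → ℝ} (h : IsBV ψ) {K : ℝ} (hK : 1 ≤ K) (hl : ∀ s t, |ψ s - ψ t| ≤ K * |s - t|) : Cls ψ 1 K := by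
  obtain ⟨s₁, s₂, l1, l2, c, hc⟩ := h.ex
  exact ⟨zero_le_one, hK, ⟨s₁, s₂, ⟨l1.mono, l1.add_one⟩, ⟨l2.mono, l2.add_one⟩, -c, fun t => by rw [hc t]; ring⟩, h.bdd, hl,
    h.mean⟩

/-- a Lipschitz majorant of a function of bounded variation -/
theorem majorant {ψ : ℝ → ℝ} (h : IsBV ψ) {η : ℝ} (hη : 0 < η) (hη1 : η ≤ 1) : ∃ (Ψ : ℝ → ℝ) (μ : ℝ), μ ≤ 2 * η ∧
    (∀ t, ψ t ≤ 3 * Ψ t + μ) ∧ IsBV Ψ ∧ Cls Ψ 1 (1 / η) ∧ (∫ t in (0 : ℝ)..1, |Ψ t - 1 / 3 * ψ t|) ≤ 2 * η := by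
  obtain ⟨s₁, s₂, l1, l2, c, hc⟩ := h.ex
  set f : ℝ → ℝ := avg s₁ η with hf
  set g : ℝ → ℝ := fun t => avg s₂ η (t - η) with hg
  have lf : H44TX.IsLift f := avg_lift l1 hη
  have lg : H44TX.IsLift g := by
    have l := avg_lift l2 hη
    refine ⟨fun t t' h => l.mono (by linarith), fun t => ?_⟩
    show avg s₂ η (t + 1 - η) = avg s₂ η (t - η) + 1
    rw [← l.add_one]
    congr 1
    ring
  have f1 : ∀ t, s₁ t ≤ f t := fun t => avg_ge l1 hη t
  have f2 : ∀ t, f t ≤ s₁ (t + η) := fun t => avg_le l1 hη t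
  have g1 : ∀ t, g t ≤ s₂ t := fun t => by
    have := avg_le l2 hη (t - η)
    rwa [sub_add_cancel] at this
  have g2 : ∀ t, s₂ (t + -η) ≤ g t := fun t => by
    have := avg_ge l2 hη (t - η)
    rwa [sub_eq_add_neg] at this
  set P : ℝ → ℝ := fun t => f t - g t - c with hP
  have hPi : IntervalIntegrable P volume 0 1 := ((lf.intInt _ _).sub (lg.intInt _ _)).sub intervalIntegrable_const
  have hψi : IntervalIntegrable ψ volume 0 1 := H44TX.intInt_of_bdd h.meas h.bdd _ _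
  set μ := ∫ t in (0 : ℝ)..1, P t with hμ
  have hge : ∀ t, ψ t ≤ P t := fun t => by
    have := f1 t
    have := g1 t
    simp only [hP, hc]
    linarith
  have hle : ∀ t, P t ≤ ψ t + 2 := fun t => by
    have a1 := f2 t
    have a2 := l1.mono (show t + η ≤ t + 1 by linarith)
    have a3 := g2 t
    have a4 := l2.mono (show t ≤ (t + -η) + 1 by linarith)
    rw [l1.add_one] at a2
    rw [l2.add_one] at a4
    simp only [hP, hc]
    linarith
  have hμ0 : 0 ≤ μ := by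
    rw [← h.mean, hμ]
    exact intervalIntegral.integral_mono_on zero_le_one hψi hPi fun t _ => hge t
  have hμ1 : μ ≤ 2 * η := by
    have e1 : μ ≤ ∫ t in (0 : ℝ)..1, (s₁ (t + η) - s₂ (t + -η) - c) := by
      rw [hμ]
      refine intervalIntegral.integral_mono_on zero_le_one hPi
        (((comp_int' l1 _ _ _).sub (comp_int' l2 _ _ _)).sub intervalIntegrable_const) fun t _ => ?_
      have := f2 t
      have := g2 t
      simp only [hP]
      linarith
    have e2 : ∫ t in (0 : ℝ)..1, (s₁ (t + η) - s₂ (t + -η) - c) = 2 * η := by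
      have e3 : ∫ t in (0 : ℝ)..1, (s₁ t - s₂ t - c) = 0 :=
        (intervalIntegral.integral_congr fun t _ => (hc t).symm).trans h.mean
      rw [intervalIntegral.integral_sub ((l1.intInt _ _).sub (l2.intInt _ _)) intervalIntegrable_const,
        intervalIntegral.integral_sub (l1.intInt _ _) (l2.intInt _ _)] at e3
      rw [intervalIntegral.integral_sub ((comp_int' l1 _ _ _).sub (comp_int' l2 _ _ _)) intervalIntegrable_const,
        intervalIntegral.integral_sub (comp_int' l1 _ _ _) (comp_int' l2 _ _ _), lift_shift l1, lift_shift l2]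
      linarith
    linarith
  have hbv : IsBV (fun t => 1 / 3 * (P t - μ)) := by
    refine ⟨⟨_, _, lift_scale lf (r := 1 / 3) (by norm_num) (by norm_num),
      lift_scale lg (r := 1 / 3) (by norm_num) (by norm_num), 1 / 3 * (c + μ), fun t => by simp only [hP]; ring⟩,
      fun t => ?_, ?_⟩
    · have a1 := abs_le.1 (h.bdd t)
      have a2 := hge t
      have a3 := hle t
      rw [abs_le]
      constructor <;> linarith
    · rw [intervalIntegral.integral_const_mul, intervalIntegral.integral_sub hPi intervalIntegrable_const, ← hμ,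
        intervalIntegral.integral_const, smul_eq_mul]
      ring
  refine ⟨fun t => 1 / 3 * (P t - μ), μ, hμ1, fun t => ?_, hbv, cls_of_bv hbv ?_ fun s t => ?_, ?_⟩
  · have := hge t
    show ψ t ≤ 3 * (1 / 3 * (P t - μ)) + μ
    linarith
  · rw [le_div_iff₀ hη]
    linarith
  · have h1 : |(f s - g s) - (f t - g t)| ≤ 1 / η * |s - t| := by
      refine sub_lip lf.mono lg.mono (K := 1 / η) (fun t t' htt => ?_) (fun t t' htt => ?_) s t
      · refine (avg_lip l1 hη hη1 htt).trans (le_of_eq ?_)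
        ring
      · refine (avg_lip l2 hη hη1 (show t - η ≤ t' - η by linarith)).trans (le_of_eq ?_)
        ring
    have h2 : 1 / 3 * (P s - μ) - 1 / 3 * (P t - μ) = 1 / 3 * ((f s - g s) - (f t - g t)) := by
      simp only [hP]
      ring
    show |1 / 3 * (P s - μ) - 1 / 3 * (P t - μ)| ≤ 1 / η * |s - t|
    rw [h2, abs_mul, abs_of_pos (show (0 : ℝ) < 1 / 3 by norm_num)]
    have h3 := abs_nonneg ((f s - g s) - (f t - g t))
    linarith
  · have e1 : ∀ t ∈ Icc (0 : ℝ) 1, |1 / 3 * (P t - μ) - 1 / 3 * ψ t| ≤ 1 / 3 * ((P t - ψ t) + μ) := by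
      intro t _
      have := hge t
      rw [show 1 / 3 * (P t - μ) - 1 / 3 * ψ t = 1 / 3 * ((P t - ψ t) - μ) by ring, abs_mul,
        abs_of_pos (show (0 : ℝ) < 1 / 3 by norm_num)]
      apply mul_le_mul_of_nonneg_left _ (by norm_num)
      rw [abs_le]
      constructor <;> linarith
    have e2 : IntervalIntegrable (fun t => |1 / 3 * (P t - μ) - 1 / 3 * ψ t|) volume 0 1 :=
      (((hPi.sub intervalIntegrable_const).const_mul _).sub (hψi.const_mul _)).abs
    have e3 : IntervalIntegrable (fun t => 1 / 3 * ((P t - ψ t) + μ)) volume 0 1 :=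
      ((hPi.sub hψi).add intervalIntegrable_const).const_mul _
    refine (intervalIntegral.integral_mono_on zero_le_one e2 e3 e1).trans ?_
    rw [intervalIntegral.integral_const_mul, intervalIntegral.integral_add (hPi.sub hψi) intervalIntegrable_const,
      intervalIntegral.integral_sub hPi hψi, ← hμ, h.mean, intervalIntegral.integral_const, smul_eq_mul]
    linarith

/-! ### Functions of bounded variation on the circle -/

theorem ext_mono {p : ℝ → ℝ} (hp : MonotoneOn p (Icc 0 1)) {P : ℝ} (hP : P = p 1 - p 0) :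
    Monotone fun t => p (Int.fract t) + P * ⌊t⌋ := by
  intro t t' h
  have m0 : (0 : ℝ) ∈ Icc (0 : ℝ) 1 := ⟨le_rfl, zero_le_one⟩
  have m1 : (1 : ℝ) ∈ Icc (0 : ℝ) 1 := ⟨zero_le_one, le_rfl⟩
  have mt : Int.fract t ∈ Icc (0 : ℝ) 1 := ⟨Int.fract_nonneg t, (Int.fract_lt_one t).le⟩
  have mt' : Int.fract t' ∈ Icc (0 : ℝ) 1 := ⟨Int.fract_nonneg t', (Int.fract_lt_one t').le⟩
  have hP0 : 0 ≤ P := by
    have := hp m0 m1 zero_le_one
    linarith
  show p (Int.fract t) + P * ⌊t⌋ ≤ p (Int.fract t') + P * ⌊t'⌋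
  rcases (Int.floor_le_floor h).lt_or_eq with hf | hf
  · have a1 := hp mt m1 mt.2
    have a2 := hp m0 mt' mt'.1
    have a3 : ((⌊t⌋ : ℝ)) + 1 ≤ ⌊t'⌋ := by exact_mod_cast hf
    have a4 := mul_le_mul_of_nonneg_left a3 hP0
    linarith
  · have a1 : Int.fract t ≤ Int.fract t' := by
      unfold Int.fract
      rw [hf]
      linarith
    have a2 := hp mt mt' a1
    rw [hf]
    linarith

theorem ext_lift {p : ℝ → ℝ} (hp : MonotoneOn p (Icc 0 1)) {P B : ℝ} (hP : P = p 1 - p 0) (hB : 0 < B) (hPB : P ≤ B) :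
    H44TX.IsLift fun t => (p (Int.fract t) + P * ⌊t⌋) / B + (1 - P / B) * t := by
  constructor
  · intro t t' h
    have a1 := div_le_div_of_nonneg_right (ext_mono hp hP h) hB.le
    have a2 : 0 ≤ 1 - P / B := by
      rw [sub_nonneg, div_le_one hB]
      exact hPB
    have a3 := mul_le_mul_of_nonneg_left h a2
    exact add_le_add a1 a3
  · intro t
    show (p (Int.fract (t + 1)) + P * ⌊t + 1⌋) / B + (1 - P / B) * (t + 1) =
      (p (Int.fract t) + P * ⌊t⌋) / B + (1 - P / B) * t + 1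
    rw [Int.fract_add_one, Int.floor_add_one]
    push_cast
    field_simp
    ring

/-- a periodic function of bounded variation on a period and of mean zero is a multiple of a function of the class -/
theorem bv_decomp {φ : ℝ → ℝ} (hper : ∀ t, φ (t + 1) = φ t) (hbv : BoundedVariationOn φ (Set.Icc 0 1))
    (hmean : ∫ t in (0 : ℝ)..1, φ t = 0) : ∃ (B : ℝ) (ψ : ℝ → ℝ), 0 < B ∧ H44TX.IsBV ψ ∧ ∀ t, φ t = B * ψ t := by
  obtain ⟨p, q, hp, hq, hpq⟩ := hbv.locallyBoundedVariationOn.exists_monotoneOn_sub_monotoneOn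
  have hφ : ∀ t, φ t = p t - q t := fun t => by rw [hpq]; rfl
  set P := p 1 - p 0 with hP
  have hQ : P = q 1 - q 0 := by
    have h1 := hper 0
    rw [zero_add, hφ, hφ] at h1
    linarith
  have m0 : (0 : ℝ) ∈ Icc (0 : ℝ) 1 := ⟨le_rfl, zero_le_one⟩
  have m1 : (1 : ℝ) ∈ Icc (0 : ℝ) 1 := ⟨zero_le_one, le_rfl⟩
  have hP0 : 0 ≤ P := by
    have := hp m0 m1 zero_le_one
    linarith
  set B := |p 0 - q 0| + P + 1 with hB
  have hab := abs_nonneg (p 0 - q 0)
  have hB0 : 0 < B := by linarith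
  have hPB : P ≤ B := by linarith
  have hfr : ∀ t, φ t = φ (Int.fract t) := fun t => by
    have hp : Function.Periodic φ 1 := hper
    have := hp.sub_int_mul_eq (x := t) ⌊t⌋
    rw [mul_one] at this
    rw [← this, Int.self_sub_floor]
  refine ⟨B, fun t => φ t / B, hB0, ⟨⟨_, _, ext_lift hp hP hB0 hPB, ext_lift hq hQ hB0 hPB, 0, fun t => ?_⟩,
    fun t => ?_, ?_⟩, fun t => by field_simp⟩
  · rw [hfr t, hφ]
    ring
  · rw [abs_div, abs_of_pos hB0, div_le_one hB0, hfr t, hφ]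
    have mt : Int.fract t ∈ Icc (0 : ℝ) 1 := ⟨Int.fract_nonneg t, (Int.fract_lt_one t).le⟩
    have a1 := hp m0 mt mt.1
    have a2 := hp mt m1 mt.2
    have a3 := hq m0 mt mt.1
    have a4 := hq mt m1 mt.2
    have a5 := le_abs_self (p 0 - q 0)
    have a6 := neg_abs_le (p 0 - q 0)
    rw [abs_le]
    constructor <;> linarith
  · rw [intervalIntegral.integral_div, hmean, zero_div]

theorem var_mul {θ : ℝ} (hθ : 1 < θ) {φ ψ : ℝ → ℝ} (h : IsBV ψ) {B : ℝ} (hφ : ∀ t, φ t = B * ψ t) :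
    VarLim θ φ (B ^ 2 * sig θ ψ) := by
  have h1 := (var_tendsto hθ h).const_mul (B ^ 2)
  unfold VarLim
  refine h1.congr fun N => ?_
  rw [← mul_div_assoc, ← intervalIntegral.integral_const_mul]
  congr 1
  refine intervalIntegral.integral_congr fun ξ _ => ?_
  simp only [hφ, ← Finset.mul_sum]
  ring

/-- the limit variance exists -/
theorem var_exists {θ : ℝ} (hθ : 1 < θ) {φ : ℝ → ℝ} (hper : ∀ t, φ (t + 1) = φ t)
    (hbv : BoundedVariationOn φ (Set.Icc 0 1)) (hmean : ∫ t in (0 : ℝ)..1, φ t = 0) : ∃ σ : ℝ, 0 ≤ σ ∧ VarLim θ φ σ := by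
  obtain ⟨B, ψ, hB, hψ, hφ⟩ := bv_decomp hper hbv hmean
  exact ⟨_, mul_nonneg (sq_nonneg B) (sig_nonneg hθ hψ), var_mul hθ hψ hφ⟩

/-! ### Moderate deviations of the means -/

theorem means_bdd {φ : ℝ → ℝ} {B : ℝ} (hB : 0 ≤ B) (h : ∀ t, |φ t| ≤ B) (u : ℕ → ℝ) (N : ℕ) :
    |(∑ n ∈ Finset.range N, φ (u n)) / N| ≤ B := by
  rcases Nat.eq_zero_or_pos N with h0 | h0
  · subst h0
    simpa using hB
  · rw [abs_div, Nat.abs_cast, div_le_iff₀ (by exact_mod_cast h0)]
    refine (Finset.abs_sum_le_sum_abs _ _).trans ((Finset.sum_le_sum fun n _ => h _).trans ?_)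
    rw [Finset.sum_const, Finset.card_range, nsmul_eq_mul, mul_comm]

theorem upper_bv {θ : ℝ} (hθ : 1 < θ) {φ ψ : ℝ → ℝ} (h : IsBV ψ) {B : ℝ} (hB : 0 < B) (hφ : ∀ t, φ t = B * ψ t)
    {σ : ℝ} (hσ0 : 0 < σ) (hσ : σ = (3 * B) ^ 2 * sig θ (fun t => 1 / 3 * ψ t)) {ε : ℝ} (hε : 0 < ε) (hε1 : ε ≤ 1) :
    ∃ δ₀ : ℝ, 0 < δ₀ ∧ ∀ δ : ℝ, 0 < δ → δ ≤ δ₀ →
    dimH {ξ | δ ≤ limsup (fun N : ℕ => (∑ n ∈ Finset.range N, φ (ξ * θ ^ (n + 1))) / N) atTop} ≤
      ENNReal.ofReal (1 - (1 - ε) / (2 * σ * Real.log θ) * δ ^ 2) := by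
  set B₀ := 3 * B with hB₀
  have hB₀0 : 0 < B₀ := by positivity
  set σ₀ := sig θ (fun t => 1 / 3 * ψ t) with hσ₀
  have hσ₀0 : 0 < σ₀ := by
    by_contra hcon
    push Not at hcon
    have : B₀ ^ 2 * σ₀ ≤ 0 := mul_nonpos_of_nonneg_of_nonpos (sq_nonneg _) hcon
    linarith
  have h3 : IsBV (fun t => 1 / 3 * ψ t) := bv_scale h (by norm_num) (by norm_num)
  set e := ε / 32 with he
  have he0 : 0 < e := by positivity
  have he1 : e ≤ 1 / 32 := by rw [he]; linarith
  have hlx := Real.log_pos hθ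
  obtain ⟨β₁, β₂, hb1, hb2, hb3, hb4, hb5⟩ := choose_bases hθ he0 (by linarith)
  obtain ⟨C, hC1, hobs⟩ := obs_of_cls hb1
  obtain ⟨ε', hε', hdev⟩ := dev_upper_s (β := β₁) (K₀ := 2 / e) (s := σ₀ * (1 + e)) (ε := e) hC1 hb1
    (by rw [le_div_iff₀ he0]; linarith) (by positivity) he0 (by linarith)
  obtain ⟨L₀, hL₀⟩ := block_all hθ hε'
  obtain ⟨δ₁, hδ₁, hδ₁1, hmain⟩ := hdev L₀
  obtain ⟨η₀, hη₀, hcl⟩ := sig_close hθ (show 0 < σ₀ * e by positivity)
  refine ⟨min (δ₁ * B₀) (min (2 * B) (B * η₀)), by positivity, fun δ hδ hδδ => ?_⟩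
  have hδ2 : δ ≤ δ₁ * B₀ := hδδ.trans (min_le_left _ _)
  have hδ3 : δ ≤ 2 * B := hδδ.trans ((min_le_right _ _).trans (min_le_left _ _))
  have hδ4 : δ ≤ B * η₀ := hδδ.trans ((min_le_right _ _).trans (min_le_right _ _))
  set η := e * δ / (2 * B) with hη
  have hη0 : 0 < η := by positivity
  have hη1 : η ≤ 1 := by
    rw [hη, div_le_one (by positivity)]
    nlinarith
  have hη2 : 2 * η ≤ η₀ := by
    have : 2 * η = e * (δ / B) := by rw [hη]; field_simp
    rw [this]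
    have h1 : δ / B ≤ η₀ := by
      rw [div_le_iff₀ hB]
      linarith
    have h2 : 0 < δ / B := by positivity
    nlinarith
  have hBη : B * (2 * η) = e * δ := by rw [hη]; field_simp
  obtain ⟨Ψ, μ, hμ, hmaj, hΨ, hcls, hdist⟩ := majorant h hη0 hη1
  set m := (1 - 3 * e) * (δ / B₀) with hm
  have h13 : 0 < 1 - 3 * e := by linarith
  have hδB : 0 < δ / B₀ := by positivity
  have hδB1 : δ / B₀ ≤ δ₁ := by rw [div_le_iff₀ hB₀0]; exact hδ2
  have hm0 : 0 < m := by positivity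
  have hmδ : m ≤ δ₁ := by rw [hm]; nlinarith
  have hcls' : Cls Ψ 1 (2 / e / m) := by
    refine hcls.mono ?_
    rw [div_div, hη, hm, hB₀, div_le_div_iff₀ (by positivity) (by positivity)]
    have e1 : 2 * (e * δ / (2 * B)) = e * (δ / B) := by field_simp
    rw [e1, one_mul]
    apply mul_le_mul_of_nonneg_left _ he0.le
    have e2 : δ / (3 * B) = 1 / 3 * (δ / B) := by field_simp
    rw [e2]
    have e3 : 0 < δ / B := by positivity
    nlinarith
  obtain ⟨L, hL, hfam⟩ := hmain m hm0 hmδ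
  have hsig : sig θ Ψ ≤ σ₀ * (1 + e) := by
    have h1 := (abs_le.1 (hcl _ _ hΨ h3 (hdist.trans hη2))).2
    linarith
  set U : ℕ → ℝ → ℝ := fun n ξ => ξ * θ ^ (n + 1) with hU
  have hφb : ∀ t, |φ t| ≤ B := fun t => by
    rw [hφ t, abs_mul, abs_of_pos hB]
    have := h.bdd t
    nlinarith
  refine (dimH_mono (t := {x | ∃ᶠ N : ℕ in atTop, ((1 - 2 * e) * (δ / B₀)) * N ≤ S Ψ U N x}) ?_).trans ?_
  · rintro x hx
    have h1 := freq_of_limsup (δ' := (1 - e) * δ) (fun N => means_bdd hB.le hφb (fun n => U n x) N) hx (by nlinarith)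
    refine (h1.and_eventually (eventually_ge_atTop 1)).mono ?_
    rintro N ⟨hN, hN1⟩
    have hNpos : (0 : ℝ) < N := by exact_mod_cast hN1
    rw [lt_div_iff₀ hNpos] at hN
    have h2 : (∑ n ∈ Finset.range N, φ (U n x)) ≤ B₀ * S Ψ U N x + e * δ * N := by
      unfold S
      have h4 : ∀ n ∈ Finset.range N, φ (U n x) ≤ B₀ * Ψ (U n x) + e * δ := fun n _ => by
        have h5 := mul_le_mul_of_nonneg_left (hmaj (U n x)) hB.le
        have h6 := mul_le_mul_of_nonneg_left hμ hB.le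
        rw [hφ]
        have h7 : B * (3 * Ψ (U n x) + μ) = B₀ * Ψ (U n x) + B * μ := by rw [hB₀]; ring
        linarith
      refine (Finset.sum_le_sum h4).trans (le_of_eq ?_)
      rw [Finset.sum_add_distrib, Finset.sum_const, Finset.card_range, nsmul_eq_mul, Finset.mul_sum]
      ring
    have h4 : (1 - 2 * e) * (δ / B₀) * N * B₀ = (1 - 2 * e) * δ * N := by field_simp
    refine le_of_mul_le_mul_right ?_ hB₀0
    rw [h4]
    linarith
  · refine Pool.Agent.Helper69.CD.dimH_le_of_local _ _ fun x hx => ?_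
    obtain ⟨n₀, v, a, b, hxab, -, hFam⟩ := theta_fam hθ hb1 hb2 hb3 x univ univ_mem
    refine ⟨Ioo a b, Ioo_mem_nhds hxab.1 hxab.2, ?_⟩
    have hlb : 0 < Real.log β₂ := Real.log_pos (by linarith)
    refine (dimH_mono ?_).trans ((hfam _ v a b β₁ β₂ le_rfl hFam _ _ (sig θ Ψ)
      (hobs _ v a b β₁ β₂ le_rfl hFam Ψ 1 _ hcls') (sig_nonneg hθ hΨ) hsig
      (hL₀ Ψ hΨ L hL n₀ a b)).trans (ENNReal.ofReal_le_ofReal ?_))
    · rintro y ⟨hfr, hy⟩
      refine ⟨Ioo_subset_Icc_self hy, ?_⟩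
      have hfr' : ∃ᶠ N : ℕ in atTop, ((1 - 2 * e) * (δ / B₀)) * N ≤ S Ψ U N y := hfr
      rw [frequently_atTop] at hfr' ⊢
      intro N₀
      have hmm : 0 < (1 - 2 * e) * (δ / B₀) - m := by rw [hm]; nlinarith
      obtain ⟨N₁, hN₁⟩ := exists_nat_gt (2 * n₀ / ((1 - 2 * e) * (δ / B₀) - m))
      rw [div_lt_iff₀ hmm] at hN₁
      obtain ⟨N, hN, hSN⟩ := hfr' (max (N₀ + n₀) (N₁ + n₀))
      obtain ⟨k, rfl⟩ : ∃ k, N = n₀ + k := ⟨N - n₀, by omega⟩
      have h1 : N₀ ≤ k := by omega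
      have h2 : (N₁ : ℝ) ≤ k := by
        have : N₁ ≤ k := by omega
        exact_mod_cast this
      refine ⟨k, h1, ?_⟩
      rw [S_shift] at hSN
      have h3 := (abs_le.1 (S_bd hcls'.bd U n₀ y)).2
      have h4 : SX (fun (n : ℕ) (x : ℝ) => Ψ ((fun (n : ℕ) (ξ : ℝ) => ξ * θ ^ (n + n₀ + 1)) n x)) k y =
          S Ψ (fun n => U (n + n₀)) k y := by
        unfold SX S
        rfl
      rw [h4]
      push_cast at hSN
      have h5 : (0 : ℝ) ≤ n₀ := Nat.cast_nonneg _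
      have h7 : 0 ≤ (1 - 2 * e) * (δ / B₀) := by
        have : 0 ≤ 1 - 2 * e := by linarith
        positivity
      have h8 : 0 ≤ (1 - 2 * e) * (δ / B₀) * n₀ := by positivity
      have h9 : ((1 - 2 * e) * (δ / B₀) - m) * N₁ ≤ ((1 - 2 * e) * (δ / B₀) - m) * k := by gcongr
      nlinarith
    · have h1 : (1 - ε) / (2 * σ * Real.log θ) * δ ^ 2 ≤ (1 - e) * m ^ 2 / (2 * (σ₀ * (1 + e)) * Real.log β₂) := by
        have h2 : (1 - e) * m ^ 2 / (2 * (σ₀ * (1 + e)) * Real.log β₂) =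
            (1 - e) * (1 - 3 * e) ^ 2 / (2 * σ * ((1 + e) * Real.log β₂)) * δ ^ 2 := by
          rw [hm, hσ]; field_simp
        rw [h2]
        apply mul_le_mul_of_nonneg_right _ (sq_nonneg δ)
        rw [div_le_div_iff₀ (by positivity) (by positivity)]
        have h3 : ε = 32 * e := by rw [he]; ring
        have h4 : (1 + e) * Real.log β₂ ≤ (1 + e) * ((1 + e) * Real.log θ) := by gcongr
        have h5 : (1 - ε) * ((1 + e) * (1 + e)) ≤ (1 - e) * (1 - 3 * e) ^ 2 := by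
          rw [h3]
          nlinarith [mul_pos he0 he0, mul_pos (mul_pos he0 he0) he0]
        have h6 : (1 - ε) * (2 * σ * ((1 + e) * Real.log β₂)) ≤ (1 - ε) * (2 * σ * ((1 + e) * ((1 + e) * Real.log θ))) := by
          apply mul_le_mul_of_nonneg_left _ (by linarith)
          gcongr
        have h7 : (1 - ε) * (2 * σ * ((1 + e) * ((1 + e) * Real.log θ))) =
            ((1 - ε) * ((1 + e) * (1 + e))) * (2 * σ * Real.log θ) := by ring
        rw [h7] at h6
        refine h6.trans ?_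
        gcongr
      linarith

theorem lower_bv {θ : ℝ} (hθ : 1 < θ) {φ ψ : ℝ → ℝ} (h : IsBV ψ) {B : ℝ} (hB : 0 < B) (hφ : ∀ t, φ t = B * ψ t)
    {σ : ℝ} (hσ0 : 0 < σ) (hσ : σ = (3 * B) ^ 2 * sig θ (fun t => 1 / 3 * ψ t)) {ε : ℝ} (hε : 0 < ε) (hε1 : ε ≤ 1) :
    ∃ δ₀ : ℝ, 0 < δ₀ ∧ ∀ δ : ℝ, 0 < δ → δ ≤ δ₀ → ∀ O : Set ℝ, IsOpen O → O.Nonempty →
      ENNReal.ofReal (1 - (1 + ε) / (2 * σ * Real.log θ) * δ ^ 2) ≤
      dimH {ξ | ξ ∈ O ∧ δ ≤ liminf (fun N : ℕ => (∑ n ∈ Finset.range N, φ (ξ * θ ^ (n + 1))) / N) atTop} := by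
  set B₀ := 3 * B with hB₀
  have hB₀0 : 0 < B₀ := by positivity
  set σ₀ := sig θ (fun t => 1 / 3 * ψ t) with hσ₀
  have hσ₀0 : 0 < σ₀ := by
    by_contra hcon
    push Not at hcon
    have : B₀ ^ 2 * σ₀ ≤ 0 := mul_nonpos_of_nonneg_of_nonpos (sq_nonneg _) hcon
    linarith
  have h3 : IsBV (fun t => 1 / 3 * ψ t) := bv_scale h (by norm_num) (by norm_num)
  set e := ε / 64 with he
  have he0 : 0 < e := by positivity
  have he1 : e ≤ 1 / 64 := by rw [he]; linarith
  have hlx := Real.log_pos hθ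
  obtain ⟨β₁, β₂, hb1, hb2, hb3, hb4, hb5⟩ := choose_bases hθ he0 (by linarith)
  obtain ⟨C, hC1, hobs⟩ := obs_of_cls hb1
  have h1e : 0 < 1 - e := by linarith
  obtain ⟨ε', hε', hdev⟩ := dev_lower_s (K₀ := 4 / e) (s := σ₀ * (1 - e)) (S₀ := σ₀ + 10 * θ / (θ - 1)) (ε := e) hC1
    (by rw [le_div_iff₀ he0]; linarith) (by positivity) (by
      have : 0 < 10 * θ / (θ - 1) := div_pos (by linarith) (by linarith)
      nlinarith) he0 (by linarith)
  obtain ⟨L₀, hL₀⟩ := block_all hθ hε'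
  obtain ⟨δ₁, hδ₁, hδ₁1, hmain⟩ := hdev L₀
  obtain ⟨η₀, hη₀, hcl⟩ := sig_close hθ (show 0 < σ₀ * e by positivity)
  refine ⟨min (δ₁ * B₀ / 2) (min (2 * B) (B * η₀)), by positivity, fun δ hδ hδδ O hO hne => ?_⟩
  have hδ2 : δ ≤ δ₁ * B₀ / 2 := hδδ.trans (min_le_left _ _)
  have hδ3 : δ ≤ 2 * B := hδδ.trans ((min_le_right _ _).trans (min_le_left _ _))
  have hδ4 : δ ≤ B * η₀ := hδδ.trans ((min_le_right _ _).trans (min_le_right _ _))
  set η := e * δ / (2 * B) with hη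
  have hη0 : 0 < η := by positivity
  have hη1 : η ≤ 1 := by
    rw [hη, div_le_one (by positivity)]
    nlinarith
  have hη2 : 2 * η ≤ η₀ := by
    have : 2 * η = e * (δ / B) := by rw [hη]; field_simp
    rw [this]
    have h1 : δ / B ≤ η₀ := by
      rw [div_le_iff₀ hB]
      linarith
    have h2 : 0 < δ / B := by positivity
    nlinarith
  have hBη : B * (2 * η) = e * δ := by rw [hη]; field_simp
  obtain ⟨Ψ', μ, hμ, hmaj, hΨ', hcls₀, hdist⟩ := majorant (bv_neg h) hη0 hη1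
  set Ψ : ℝ → ℝ := fun t => -Ψ' t with hΨdef
  have hΨ : IsBV Ψ := bv_neg hΨ'
  have hmin : ∀ t, 3 * Ψ t - μ ≤ ψ t := fun t => by
    have := hmaj t
    simp only [hΨdef]
    linarith
  have hcls : Cls Ψ 1 (1 / η) := hcls₀.neg
  have hdist' : (∫ t in (0 : ℝ)..1, |Ψ t - 1 / 3 * ψ t|) ≤ 2 * η := by
    refine le_trans (le_of_eq ?_) hdist
    refine intervalIntegral.integral_congr fun t _ => ?_
    simp only [hΨdef]
    rw [show -Ψ' t - 1 / 3 * ψ t = -(Ψ' t - 1 / 3 * -ψ t) by ring, abs_neg]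
  set m := (1 + 3 * e) * (δ / B₀) with hm
  have hδB : 0 < δ / B₀ := by positivity
  have hδB1 : δ / B₀ ≤ δ₁ / 2 := by
    rw [div_le_iff₀ hB₀0]
    linarith
  have hm0 : 0 < m := by positivity
  have hmδ : m ≤ δ₁ := by rw [hm]; nlinarith
  have hcls' : Cls Ψ 1 (4 / e / m) := by
    refine hcls.mono ?_
    rw [div_div, hη, hm, hB₀, div_le_div_iff₀ (by positivity) (by positivity)]
    have e1 : 4 * (e * δ / (2 * B)) = e * (2 * (δ / B)) := by field_simp; ring
    rw [e1, one_mul]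
    apply mul_le_mul_of_nonneg_left _ he0.le
    have e2 : δ / (3 * B) = 1 / 3 * (δ / B) := by field_simp
    rw [e2]
    have e3 : 0 < δ / B := by positivity
    nlinarith
  obtain ⟨L, hL, hfam⟩ := hmain m hm0 hmδ
  obtain ⟨x, hx⟩ := hne
  obtain ⟨n₀, v, a, b, hxab, hsub, hFam⟩ := theta_fam hθ hb1 hb2 hb3 x O (hO.mem_nhds hx)
  set U : ℕ → ℝ → ℝ := fun n ξ => ξ * θ ^ (n + 1) with hU
  have hsge : σ₀ * (1 - e) ≤ sig θ Ψ := by
    have h1 := (abs_le.1 (hcl _ _ hΨ h3 (hdist'.trans hη2))).1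
    linarith
  have hφb : ∀ t, |φ t| ≤ B := fun t => by
    rw [hφ t, abs_mul, abs_of_pos hB]
    have := h.bdd t
    nlinarith
  have hlow := hfam _ v a b β₁ β₂ hFam _ _ (sig θ Ψ) (hobs _ v a b β₁ β₂ le_rfl hFam Ψ 1 _ hcls')
    hsge (by
      have h1 := (abs_le.1 (sig_le hθ hΨ)).2
      linarith) (hL₀ Ψ hΨ L hL n₀ a b)
  refine (ENNReal.ofReal_le_ofReal ?_).trans (hlow.trans (dimH_mono ?_))
  · have hlb : 0 < Real.log β₁ := Real.log_pos hb1
    have h1 : (1 + e) * m ^ 2 / (2 * (σ₀ * (1 - e)) * Real.log β₁) ≤ (1 + ε) / (2 * σ * Real.log θ) * δ ^ 2 := by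
      have h2 : (1 + e) * m ^ 2 / (2 * (σ₀ * (1 - e)) * Real.log β₁) =
          (1 + e) * (1 + 3 * e) ^ 2 / (2 * σ * ((1 - e) * Real.log β₁)) * δ ^ 2 := by
        rw [hm, hσ]; field_simp
      rw [h2]
      apply mul_le_mul_of_nonneg_right _ (sq_nonneg δ)
      rw [div_le_div_iff₀ (by positivity) (by positivity)]
      have h3' : ε = 64 * e := by rw [he]; ring
      have h4 : (1 - e) * ((1 - e) * Real.log θ) ≤ (1 - e) * Real.log β₁ := by gcongr
      have h5 : (1 + e) * (1 + 3 * e) ^ 2 ≤ (1 + ε) * ((1 - e) * (1 - e)) := by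
        rw [h3']
        nlinarith [mul_pos he0 he0, mul_pos (mul_pos he0 he0) he0]
      have h6 : (1 + ε) * (2 * σ * ((1 - e) * ((1 - e) * Real.log θ))) ≤ (1 + ε) * (2 * σ * ((1 - e) * Real.log β₁)) := by
        gcongr
      refine le_trans ?_ h6
      have h7 : (1 + ε) * (2 * σ * ((1 - e) * ((1 - e) * Real.log θ))) =
          ((1 + ε) * ((1 - e) * (1 - e))) * (2 * σ * Real.log θ) := by ring
      rw [h7]
      gcongr
    linarith
  · rintro y ⟨hy, hev⟩
    have hev' : ∀ᶠ N : ℕ in atTop, (1 + 2 * e) * (δ / B₀) * N ≤ S Ψ U N y :=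
      loc_lower_aux (m := m) (m' := (1 + 2 * e) * (δ / B₀)) (n₀ := n₀) (U := U) (by rw [hm]; nlinarith) hm0 hcls'.bd hev
    refine ⟨hsub hy, liminf_of_event (fun N => means_bdd hB.le hφb (fun n => U n y) N) ?_⟩
    filter_upwards [hev', eventually_ge_atTop 1] with N hN hN1
    have hNpos : (0 : ℝ) < N := by exact_mod_cast hN1
    rw [le_div_iff₀ hNpos]
    have h2 : B₀ * S Ψ U N y - e * δ * N ≤ ∑ n ∈ Finset.range N, φ (U n y) := by
      unfold S
      have h4 : ∀ n ∈ Finset.range N, B₀ * Ψ (U n y) - e * δ ≤ φ (U n y) := fun n _ => by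
        have h5 := mul_le_mul_of_nonneg_left (hmin (U n y)) hB.le
        have h6 := mul_le_mul_of_nonneg_left hμ hB.le
        rw [hφ]
        have h7 : B * (3 * Ψ (U n y) - μ) = B₀ * Ψ (U n y) - B * μ := by rw [hB₀]; ring
        linarith
      refine le_trans (le_of_eq ?_) (Finset.sum_le_sum h4)
      rw [Finset.sum_sub_distrib, Finset.sum_const, Finset.card_range, nsmul_eq_mul, Finset.mul_sum]
      ring
    have h4 : B₀ * ((1 + 2 * e) * (δ / B₀) * N) = (1 + 2 * e) * δ * N := by field_simp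
    have h5 := mul_le_mul_of_nonneg_left hN hB₀0.le
    rw [h4] at h5
    have h6 : 0 ≤ e * δ * N := by positivity
    linarith

/-- moderate deviations of the means of a function of bounded variation along a geometric progression -/
theorem theta_bv {θ : ℝ} (hθ : 1 < θ) {φ : ℝ → ℝ} (hper : ∀ t, φ (t + 1) = φ t)
    (hbv : BoundedVariationOn φ (Set.Icc 0 1)) (hmean : ∫ t in (0 : ℝ)..1, φ t = 0) {σ : ℝ} (hσ : VarLim θ φ σ)
    (hσ0 : 0 < σ) {ε : ℝ} (hε : 0 < ε) : ∃ δ₀ : ℝ, 0 < δ₀ ∧ ∀ δ : ℝ, 0 < δ → δ ≤ δ₀ →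
    (∀ O : Set ℝ, IsOpen O → O.Nonempty → ENNReal.ofReal (1 - (1 + ε) / (2 * σ * Real.log θ) * δ ^ 2) ≤
      dimH {ξ | ξ ∈ O ∧ δ ≤ liminf (fun N : ℕ => (∑ n ∈ Finset.range N, φ (ξ * θ ^ (n + 1))) / N) atTop}) ∧
    dimH {ξ | δ ≤ limsup (fun N : ℕ => (∑ n ∈ Finset.range N, φ (ξ * θ ^ (n + 1))) / N) atTop} ≤
      ENNReal.ofReal (1 - (1 - ε) / (2 * σ * Real.log θ) * δ ^ 2) := by
  obtain ⟨B, ψ, hB, hψ, hφ⟩ := bv_decomp hper hbv hmean
  have h3 : IsBV (fun t => 1 / 3 * ψ t) := bv_scale hψ (by norm_num) (by norm_num)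
  have hσ' : σ = (3 * B) ^ 2 * sig θ (fun t => 1 / 3 * ψ t) :=
    tendsto_nhds_unique hσ (var_mul hθ h3 (B := 3 * B) fun t => by rw [hφ t]; ring)
  have hlx := Real.log_pos hθ
  set ε' := min ε 1 with hε'
  have he0 : 0 < ε' := by positivity
  have he1 : ε' ≤ 1 := min_le_right _ _
  have hee : ε' ≤ ε := min_le_left _ _
  obtain ⟨δ₁, hδ₁, h1⟩ := upper_bv hθ hψ hB hφ hσ0 hσ' he0 he1
  obtain ⟨δ₂, hδ₂, h2⟩ := lower_bv hθ hψ hB hφ hσ0 hσ' he0 he1
  refine ⟨min δ₁ δ₂, by positivity, fun δ hδ hδδ => ⟨fun O hO hne => ?_, ?_⟩⟩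
  · refine le_trans (ENNReal.ofReal_le_ofReal ?_) (h2 δ hδ (hδδ.trans (min_le_right _ _)) O hO hne)
    have : (1 + ε') / (2 * σ * Real.log θ) * δ ^ 2 ≤ (1 + ε) / (2 * σ * Real.log θ) * δ ^ 2 := by gcongr
    linarith
  · refine le_trans (h1 δ hδ (hδδ.trans (min_le_left _ _))) (ENNReal.ofReal_le_ofReal ?_)
    have : (1 - ε) / (2 * σ * Real.log θ) * δ ^ 2 ≤ (1 - ε') / (2 * σ * Real.log θ) * δ ^ 2 := by gcongr
    linarith

end Pool.Agent.Helper94.KD
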